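import Mathlib

/-!
# The interval property fails for PSD propagation times

There is a graph `G` on 15 vertices with PSD zero forcing number 6 whose minimum PSD zero forcing
sets have propagation times 1, 2, 3 and 5, 6, 7, 8, 9 but never 4. We prove that
`pt₊(G) = 1`, `PT₊(G) ≥ 9` and that no minimum PSD zero forcing set has propagation time 4.

Vertex sets are encoded by bit masks; the (verified) functions `stepU` and `stepL` are upper and
lower bounds for one round of the PSD colour change rule.
-/

namespace Pool.Agent.Results.MP_bfe17a_co.NoInterval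

section defs

variable {V : Type*}

/-- `w` and `x` lie in the same connected component of `G - B`. -/
def SameComponent (G : SimpleGraph V) (B : Set V) (w x : V) : Prop :=
  ∃ p : G.Walk w x, ∀ y ∈ p.support, y ∉ B

/-- The PSD colour change rule: when exactly `B` is blue, the blue vertex `u` may force the white
vertex `w` if `w` is the only neighbour of `u` in the component of `G - B` containing `w`. -/
def Forces (G : SimpleGraph V) (B : Set V) (u w : V) : Prop :=
  u ∈ B ∧ w ∉ B ∧ G.Adj u w ∧ ∀ x, G.Adj u x → SameComponent G B w x → x = w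

/-- One round: all possible forces are performed simultaneously. -/
def step (G : SimpleGraph V) (B : Set V) : Set V := B ∪ {w | ∃ u, Forces G B u w}

/-- The blue set after `t` rounds. -/
def blue (G : SimpleGraph V) (S : Set V) : ℕ → Set V
  | 0 => S
  | t + 1 => step G (blue G S t)

/-- `S` is a PSD zero forcing set. -/
def IsForcing (G : SimpleGraph V) (S : Set V) : Prop := ∃ t, blue G S t = Set.univ

/-- The PSD zero forcing number. -/
noncomputable def zPlus (G : SimpleGraph V) : ℕ :=
  sInf {k | ∃ S : Finset V, IsForcing G (S : Set V) ∧ S.card = k}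

/-- `S` is a minimum PSD zero forcing set. -/
def IsMinimum (G : SimpleGraph V) (S : Finset V) : Prop :=
  IsForcing G (S : Set V) ∧ S.card = zPlus G

/-- The propagation time of `S`. -/
noncomputable def pt (G : SimpleGraph V) (S : Finset V) : ℕ :=
  sInf {t | blue G (S : Set V) t = Set.univ}

/-- The propagation times of the minimum PSD zero forcing sets. -/
def times (G : SimpleGraph V) : Set ℕ := {t | ∃ S : Finset V, IsMinimum G S ∧ pt G S = t}

/-- The minimum propagation time `pt₊(G)`. -/
noncomputable def ptMin (G : SimpleGraph V) : ℕ := sInf (times G)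

/-- The maximum propagation time `PT₊(G)`. -/
noncomputable def ptMax (G : SimpleGraph V) : ℕ := sSup (times G)

theorem SameComponent.mono {G : SimpleGraph V} {B B' : Set V} (h : B ⊆ B') {w x : V}
    (hs : SameComponent G B' w x) : SameComponent G B w x := by
  obtain ⟨p, hp⟩ := hs
  exact ⟨p, fun y hy hB => hp y hy (h hB)⟩

theorem step_mono {G : SimpleGraph V} {B B' : Set V} (h : B ⊆ B') : step G B ⊆ step G B' := by
  rintro w (hw | ⟨u, hu, hw, ha, hx⟩)
  · exact Or.inl (h hw)
  · by_cases hwB : w ∈ B'
    · exact Or.inl hwB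
    · exact Or.inr ⟨u, h hu, hwB, ha, fun x hax hs => hx x hax (hs.mono h)⟩

theorem blue_mono {G : SimpleGraph V} {B B' : Set V} (h : B ⊆ B') (t : ℕ) :
    blue G B t ⊆ blue G B' t := by
  induction t with
  | zero => exact h
  | succ t ih => exact step_mono ih

theorem subset_step {G : SimpleGraph V} (B : Set V) : B ⊆ step G B := fun _ h => Or.inl h

/-- A connected fort which is white stays white. -/
theorem blue_disjoint_fort {G : SimpleGraph V} {S F : Set V} {r : V}
    (hconn : ∀ y ∈ F, ∃ p : G.Walk r y, ∀ z ∈ p.support, z ∈ F)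
    (hfort : ∀ u, u ∉ F → ∀ w ∈ F, G.Adj u w → ∃ x ∈ F, G.Adj u x ∧ x ≠ w)
    (hS : ∀ y ∈ F, y ∉ S) (t : ℕ) : ∀ y ∈ F, y ∉ blue G S t := by
  induction t with
  | zero => exact hS
  | succ t ih =>
    rintro w hwF (hw | ⟨u, hu, hw, ha, hx⟩)
    · exact ih w hwF hw
    · have huF : u ∉ F := fun h => ih u h hu
      obtain ⟨x, hxF, hux, hne⟩ := hfort u huF w hwF ha
      apply hne
      refine hx x hux ?_
      obtain ⟨p, hp⟩ := hconn w hwF
      obtain ⟨q, hq⟩ := hconn x hxF
      refine ⟨p.reverse.append q, fun y hy => ?_⟩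
      rw [SimpleGraph.Walk.mem_support_append_iff, SimpleGraph.Walk.support_reverse,
        List.mem_reverse] at hy
      rcases hy with hy | hy
      · exact ih y (hp y hy)
      · exact ih y (hq y hy)

end defs

/-! ## Bit masks -/

/-- The adjacency matrix, packed into one number. -/
def adjBits : ℕ := 13903697235943418269780372154670631625005900582826742070375898998278

/-- The neighbourhood of `i` as a bit mask. -/
def adjm (i : ℕ) : ℕ := (adjBits >>> (15 * i)) &&& 32767

/-- The graph. -/
def X : SimpleGraph (Fin 15) where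
  Adj i j := (adjm i.val).testBit j.val = true
  symm := ⟨by decide +kernel⟩
  loopless := ⟨by decide +kernel⟩

theorem testBit_adjm_lt {i j : ℕ} (h : (adjm i).testBit j = true) : j < 15 := by
  unfold adjm at h
  rw [Nat.testBit_and, show (32767 : ℕ) = 2 ^ 15 - 1 by norm_num,
    Nat.testBit_two_pow_sub_one, Bool.and_eq_true, decide_eq_true_iff] at h
  exact h.2

/-- A device which makes the kernel evaluate `x` first. -/
def force {α : Type} (x : ℕ) (f : ℕ → α) : α :=
  match x with
  | 0 => f 0
  | n + 1 => f (n + 1)

theorem force_eq {α : Type} (x : ℕ) (f : ℕ → α) : force x f = f x := by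
  cases x <;> rfl

/-- The union of the neighbourhoods of the members of `m` below `k`. -/
def nbAux (m : ℕ) : ℕ → ℕ
  | 0 => 0
  | i + 1 => (if m.testBit i then adjm i else 0) ||| nbAux m i

theorem testBit_nbAux (m k j : ℕ) :
    (nbAux m k).testBit j = true ↔ ∃ i < k, m.testBit i = true ∧ (adjm i).testBit j = true := by
  induction k with
  | zero => simp [nbAux]
  | succ k ih =>
    rw [nbAux, Nat.testBit_or, Bool.or_eq_true, ih]
    constructor
    · rintro (h | ⟨i, hi, h⟩)
      · by_cases hm : m.testBit k = true
        · rw [if_pos hm] at h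
          exact ⟨k, Nat.lt_succ_self k, hm, h⟩
        · rw [if_neg hm] at h
          simp at h
      · exact ⟨i, Nat.lt_succ_of_lt hi, h⟩
    · rintro ⟨i, hi, hm, h⟩
      rcases Nat.lt_succ_iff_lt_or_eq.1 hi with hi | rfl
      · exact Or.inr ⟨i, hi, hm, h⟩
      · left
        rw [if_pos hm]
        exact h

/-- `t` rounds of growing the set `x` inside `W`. -/
def grow (W : ℕ) : ℕ → ℕ → ℕ
  | 0, x => x
  | t + 1, x => force ((x ||| nbAux x 15) &&& W) (grow W t)

/-- The component of `w` in the complement of `B`. -/
def comp (B w : ℕ) : ℕ := force (32767 ^^^ B) (fun W => grow W 14 (2 ^ w))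

/-- The set encoded by a mask. -/
def ofMask (m : ℕ) : Set (Fin 15) := {v | m.testBit v.val = true}

theorem mem_ofMask {m : ℕ} {v : Fin 15} : v ∈ ofMask m ↔ m.testBit v.val = true := Iff.rfl

theorem testBit_compl {B j : ℕ} (hj : j < 15) :
    (32767 ^^^ B).testBit j = true ↔ ¬ B.testBit j = true := by
  rw [Nat.testBit_xor, show (32767 : ℕ) = 2 ^ 15 - 1 by norm_num, Nat.testBit_two_pow_sub_one]
  simp [hj]

/-- Everything found by `grow` is reachable inside `P`. -/
theorem grow_sound {W : ℕ} {P : Fin 15 → Prop} {w : Fin 15}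
    (hW : ∀ v : Fin 15, W.testBit v.val = true → P v) (t : ℕ) :
    ∀ x : ℕ, (∀ j, x.testBit j = true → ∃ h : j < 15, ∃ p : X.Walk w ⟨j, h⟩,
        ∀ z ∈ p.support, P z) →
      ∀ j, (grow W t x).testBit j = true → ∃ h : j < 15, ∃ p : X.Walk w ⟨j, h⟩,
        ∀ z ∈ p.support, P z := by
  induction t with
  | zero => exact fun x hx => hx
  | succ t ih =>
    intro x hx
    rw [grow, force_eq]
    apply ih
    intro j hj
    rw [Nat.testBit_and, Bool.and_eq_true, Nat.testBit_or, Bool.or_eq_true, testBit_nbAux] at hj
    obtain ⟨h1 | ⟨i, hi, hxi, hij⟩, h2⟩ := hj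
    · exact hx j h1
    · have hj15 := testBit_adjm_lt hij
      obtain ⟨hi', p, hp⟩ := hx i hxi
      refine ⟨hj15, p.append (SimpleGraph.Walk.cons (show X.Adj ⟨i, hi'⟩ ⟨j, hj15⟩ from hij)
        SimpleGraph.Walk.nil), ?_⟩
      intro z hz
      rw [SimpleGraph.Walk.mem_support_append_iff] at hz
      rcases hz with hz | hz
      · exact hp z hz
      · rw [SimpleGraph.Walk.support_cons, SimpleGraph.Walk.support_nil] at hz
        simp only [List.mem_cons, List.not_mem_nil, or_false] at hz
        rcases hz with rfl | rfl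
        · exact hp _ (SimpleGraph.Walk.end_mem_support p)
        · exact hW _ h2

theorem comp_sound {B : ℕ} {w : Fin 15} (hw : w ∉ ofMask B) {j : ℕ}
    (hj : (comp B w.val).testBit j = true) :
    ∃ h : j < 15, SameComponent X (ofMask B) w ⟨j, h⟩ := by
  rw [comp, force_eq] at hj
  refine grow_sound (P := fun v => v ∉ ofMask B) (fun v hv => ?_) 14 _ ?_ j hj
  · exact (testBit_compl v.isLt).1 hv
  · intro i hi
    rw [Nat.testBit_two_pow, decide_eq_true_iff] at hi
    subst hi
    refine ⟨w.isLt, SimpleGraph.Walk.nil, ?_⟩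
    intro z hz
    rw [SimpleGraph.Walk.support_nil, List.mem_singleton] at hz
    rw [hz]
    exact hw

/-- Is `K` closed under adjacency in the complement of `B`? -/
def closed (B K : ℕ) : Bool := ((K ||| nbAux K 15) &&& (32767 ^^^ B)) == K

theorem closed_complete {B K : ℕ} (hK : closed B K = true) {w x : Fin 15}
    (hw : K.testBit w.val = true) (h : SameComponent X (ofMask B) w x) :
    K.testBit x.val = true := by
  obtain ⟨p, hp⟩ := h
  induction p with
  | nil => exact hw
  | cons hadj q ih =>
    rename_i a b c
    apply ih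
    · rw [closed, beq_iff_eq] at hK
      rw [← hK, Nat.testBit_and, Bool.and_eq_true, Nat.testBit_or, Bool.or_eq_true,
        testBit_nbAux]
      refine ⟨Or.inr ⟨a.val, a.isLt, hw, hadj⟩, ?_⟩
      rw [testBit_compl b.isLt]
      apply hp b
      rw [SimpleGraph.Walk.support_cons]
      exact List.mem_cons_of_mem _ q.start_mem_support
    · intro y hy
      apply hp y
      rw [SimpleGraph.Walk.support_cons]
      exact List.mem_cons_of_mem _ hy

/-- Does a member of `B` below `k` see `K` only in `w`? -/
def seen (B K w : ℕ) : ℕ → Bool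
  | 0 => false
  | u + 1 => (B.testBit u && (adjm u &&& K) == 2 ^ w) || seen B K w u

theorem seen_iff {B K w k : ℕ} : seen B K w k = true ↔
    ∃ u < k, B.testBit u = true ∧ adjm u &&& K = 2 ^ w := by
  induction k with
  | zero => simp [seen]
  | succ k ih =>
    rw [seen, Bool.or_eq_true, Bool.and_eq_true, beq_iff_eq, ih]
    constructor
    · rintro (⟨h1, h2⟩ | ⟨u, hu, h⟩)
      · exact ⟨k, Nat.lt_succ_self k, h1, h2⟩
      · exact ⟨u, Nat.lt_succ_of_lt hu, h⟩
    · rintro ⟨u, hu, h1, h2⟩
      rcases Nat.lt_succ_iff_lt_or_eq.1 hu with hu | rfl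
      · exact Or.inr ⟨u, hu, h1, h2⟩
      · exact Or.inl ⟨h1, h2⟩

/-- Is `w` forced in the next round? With `b = true` the computed component is also checked to be
closed. -/
def forcedB (b : Bool) (B w : ℕ) : Bool :=
  force (comp B w) (fun K => seen B K w 15 && (!b || closed B K))

/-- One round, restricted to the vertices below `k`. -/
def stepAux (b : Bool) (B : ℕ) : ℕ → ℕ
  | 0 => B
  | w + 1 => (if !B.testBit w && forcedB b B w then 2 ^ w else 0) ||| stepAux b B w

theorem testBit_stepAux (b : Bool) (B k j : ℕ) : (stepAux b B k).testBit j = true ↔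
    B.testBit j = true ∨ (j < k ∧ ¬ B.testBit j = true ∧ forcedB b B j = true) := by
  induction k with
  | zero => simp [stepAux]
  | succ k ih =>
    rw [stepAux, Nat.testBit_or, Bool.or_eq_true, ih]
    constructor
    · rintro (h | h | ⟨h1, h2, h3⟩)
      · by_cases hc : (!B.testBit k && forcedB b B k) = true
        · rw [if_pos hc, Nat.testBit_two_pow, decide_eq_true_iff] at h
          subst h
          rw [Bool.and_eq_true, Bool.not_eq_true'] at hc
          exact Or.inr ⟨Nat.lt_succ_self _, by simp [hc.1], hc.2⟩
        · rw [if_neg hc] at h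
          simp at h
      · exact Or.inl h
      · exact Or.inr ⟨Nat.lt_succ_of_lt h1, h2, h3⟩
    · rintro (h | ⟨h1, h2, h3⟩)
      · exact Or.inr (Or.inl h)
      · rcases Nat.lt_succ_iff_lt_or_eq.1 h1 with h1 | rfl
        · exact Or.inr (Or.inr ⟨h1, h2, h3⟩)
        · left
          rw [if_pos]
          · rw [Nat.testBit_two_pow, decide_eq_true_iff]
          · rw [Bool.and_eq_true, Bool.not_eq_true']
            exact ⟨by simpa using h2, h3⟩

theorem step_subset (B : ℕ) : step X (ofMask B) ⊆ ofMask (stepAux false B 15) := by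
  rintro w (hw | ⟨u, hu, hw, ha, hx⟩)
  · exact (testBit_stepAux _ _ _ _).2 (Or.inl hw)
  · refine (testBit_stepAux _ _ _ _).2 (Or.inr ⟨w.isLt, hw, ?_⟩)
    rw [forcedB, force_eq, Bool.and_eq_true, seen_iff]
    refine ⟨⟨u.val, u.isLt, hu, ?_⟩, rfl⟩
    apply Nat.eq_of_testBit_eq
    intro j
    rw [Nat.testBit_and, Nat.testBit_two_pow, Bool.eq_iff_iff, Bool.and_eq_true,
      decide_eq_true_iff]
    constructor
    · rintro ⟨h1, h2⟩
      obtain ⟨hj, hs⟩ := comp_sound hw h2
      exact (congrArg Fin.val (hx ⟨j, hj⟩ h1 hs)).symm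
    · rintro rfl
      refine ⟨ha, ?_⟩
      rw [comp, force_eq]
      have key : ∀ t x, x.testBit w.val = true →
          (grow (32767 ^^^ B) t x).testBit w.val = true := by
        intro t
        induction t with
        | zero => exact fun x hx => hx
        | succ t ih =>
          intro x hx
          rw [grow, force_eq]
          apply ih
          rw [Nat.testBit_and, Bool.and_eq_true, Nat.testBit_or, Bool.or_eq_true]
          exact ⟨Or.inl hx, (testBit_compl w.isLt).2 hw⟩
      exact key 14 _ (by rw [Nat.testBit_two_pow, decide_eq_true_iff])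

theorem subset_step' (B : ℕ) : ofMask (stepAux true B 15) ⊆ step X (ofMask B) := by
  intro w hw
  rw [mem_ofMask, testBit_stepAux] at hw
  rcases hw with hw | ⟨_, hw, hf⟩
  · exact Or.inl hw
  · right
    rw [forcedB, force_eq, Bool.and_eq_true, seen_iff] at hf
    obtain ⟨⟨u, hu, huB, hK⟩, hcl⟩ := hf
    have hcl' : closed B (comp B w.val) = true := by simpa using hcl
    have hbit : ∀ j, ((adjm u).testBit j = true ∧ (comp B w.val).testBit j = true) ↔
        j = w.val := by
      intro j
      have := congrArg (fun m => m.testBit j) hK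
      simp only [Nat.testBit_and, Nat.testBit_two_pow] at this
      rw [← Bool.and_eq_true, this, decide_eq_true_iff]
      exact eq_comm
    obtain ⟨ha, hwK⟩ := (hbit w.val).2 rfl
    refine ⟨⟨u, hu⟩, huB, hw, ha, ?_⟩
    intro x hux hs
    have hxK := closed_complete hcl' hwK hs
    exact Fin.ext ((hbit x.val).1 ⟨hux, hxK⟩)

/-- `t` rounds on masks. -/
def run (b : Bool) : ℕ → ℕ → ℕ
  | 0, B => B
  | t + 1, B => force (stepAux b B 15) (run b t)

theorem blue_succ' {V : Type*} (G : SimpleGraph V) (S : Set V) (t : ℕ) :
    blue G S (t + 1) = blue G (step G S) t := by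
  induction t with
  | zero => rfl
  | succ t ih =>
    rw [blue, ih, blue]

theorem blue_subset_run (t : ℕ) : ∀ B : ℕ, blue X (ofMask B) t ⊆ ofMask (run false t B) := by
  induction t with
  | zero => exact fun B => subset_rfl
  | succ t ih =>
    intro B
    rw [blue_succ', run, force_eq]
    exact (blue_mono (step_subset B) t).trans (ih _)

theorem run_subset_blue (t : ℕ) : ∀ B : ℕ, ofMask (run true t B) ⊆ blue X (ofMask B) t := by
  induction t with
  | zero => exact fun B => subset_rfl
  | succ t ih =>
    intro B
    rw [blue_succ', run, force_eq]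
    exact (ih _).trans (blue_mono (subset_step' B) t)

/-- Are all 15 bits set? -/
def isFull (m : ℕ) : Bool := (m &&& 32767) == 32767

theorem isFull_iff {m : ℕ} : isFull m = true ↔ ofMask m = Set.univ := by
  rw [isFull, beq_iff_eq]
  constructor
  · intro h
    ext v
    simp only [Set.mem_univ, iff_true]
    have := congrArg (fun x => x.testBit v.val) h
    simp only [Nat.testBit_and, show (32767 : ℕ) = 2 ^ 15 - 1 by norm_num,
      Nat.testBit_two_pow_sub_one, v.isLt, decide_true, Bool.and_true] at this
    exact this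
  · intro h
    apply Nat.eq_of_testBit_eq
    intro j
    rw [Nat.testBit_and, show (32767 : ℕ) = 2 ^ 15 - 1 by norm_num, Nat.testBit_two_pow_sub_one]
    by_cases hj : j < 15
    · have : (⟨j, hj⟩ : Fin 15) ∈ ofMask m := by rw [h]; trivial
      rw [mem_ofMask] at this
      simp only at this
      rw [this]
      simp
    · simp [hj]

/-! ## Forts -/

/-- `F` is connected and no vertex outside `F` sees exactly one member of `F`. -/
def isFort (F : ℕ) : Bool :=
  F != 0 && grow F 14 (2 ^ Nat.log2 F) == F && Nat.log2 F < 15 &&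
    (List.range 15).all (fun v => F.testBit v ||
      (List.range 15).all (fun w => (adjm v &&& F) != 2 ^ w))

theorem not_forcing_of_fort {F m : ℕ} (hF : isFort F = true) (hm : m &&& F = 0) :
    ¬ IsForcing X (ofMask m) := by
  rw [isFort, Bool.and_eq_true, Bool.and_eq_true, Bool.and_eq_true, bne_iff_ne,
    beq_iff_eq, decide_eq_true_iff] at hF
  obtain ⟨⟨⟨hne, hconn⟩, hlt⟩, hall⟩ := hF
  have hrF : F.testBit (Nat.log2 F) = true := Nat.testBit_log2 hne
  obtain ⟨r, hr⟩ : ∃ r : Fin 15, r.val = Nat.log2 F := ⟨⟨_, hlt⟩, rfl⟩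
  have hr' : r ∈ ofMask F := by rw [mem_ofMask, hr]; exact hrF
  have hreach : ∀ j, F.testBit j = true → ∃ h : j < 15, ∃ p : X.Walk r ⟨j, h⟩,
      ∀ z ∈ p.support, z ∈ ofMask F := by
    intro j hj
    rw [← hconn] at hj
    refine grow_sound (P := fun v => v ∈ ofMask F) (fun v hv => hv) 14 _ ?_ j hj
    intro i hi
    rw [Nat.testBit_two_pow, decide_eq_true_iff] at hi
    subst hi
    refine ⟨hlt, ?_⟩
    have e : r = ⟨Nat.log2 F, hlt⟩ := Fin.ext hr
    rw [← e]
    refine ⟨SimpleGraph.Walk.nil, fun z hz => ?_⟩
    rw [SimpleGraph.Walk.support_nil, List.mem_singleton] at hz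
    rw [hz]
    exact hr'
  rw [List.all_eq_true] at hall
  rintro ⟨t, ht⟩
  have key := blue_disjoint_fort (G := X) (S := ofMask m) (F := ofMask F) (r := r)
    (fun y hy => by
      obtain ⟨h, p, hp⟩ := hreach y.val hy
      exact ⟨p, hp⟩)
    (fun u hu w hw huw => by
      by_contra hcon
      push Not at hcon
      have h1 := hall u.val (List.mem_range.2 u.isLt)
      rw [Bool.or_eq_true] at h1
      rcases h1 with h1 | h1
      · exact hu h1
      · rw [List.all_eq_true] at h1
        have h2 := h1 w.val (List.mem_range.2 w.isLt)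
        rw [bne_iff_ne] at h2
        apply h2
        apply Nat.eq_of_testBit_eq
        intro j
        rw [Nat.testBit_and, Nat.testBit_two_pow, Bool.eq_iff_iff, Bool.and_eq_true,
          decide_eq_true_iff]
        constructor
        · rintro ⟨h3, h4⟩
          exact (congrArg Fin.val (hcon ⟨j, testBit_adjm_lt h3⟩ h4 h3)).symm
        · rintro rfl
          exact ⟨huw, hw⟩)
    (fun y hy hym => by
      have h1 := congrArg (fun x => x.testBit y.val) hm
      simp only [Nat.testBit_and, Nat.zero_testBit] at h1
      rw [mem_ofMask] at hy hym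
      rw [hy, hym] at h1
      exact absurd h1 (by decide)) t r hr'
  exact key (by rw [ht]; trivial)

/-- The forts used. -/
def forts : List ℕ :=
  [110, 961, 7188, 8483, 5672, 1618, 16581, 6666, 3620, 1441, 604, 4658, 1082, 3148, 27912,
   29328, 10387, 7744, 20749, 1140, 13319, 17300, 25416, 8601, 16555, 17802, 614, 25776, 2574,
   19729, 1640, 8533, 16818, 12937, 8652, 5142, 30884, 31042, 6708, 7242, 18951, 5698, 13200,
   618, 11656, 118, 1126, 22049, 8845, 11841, 17233, 17683, 9385, 23456, 2142, 4158, 9513, 11283,
   21005, 17105, 8626, 9029, 16793, 17571, 13081, 19609, 17165, 10694, 21984, 27018, 29346, 9363,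
   16844, 24754, 24908, 27056, 29076, 5166, 6738, 8065, 27972, 2668, 5234, 17451, 2459, 11172,
   29128, 1588, 3680, 461, 8789, 19848, 20902, 25236, 13762, 25866, 925, 10469, 20835, 5728,
   7617, 10523, 20637, 1610, 7712, 17352, 10148, 10665, 12037, 20945, 24796, 24890, 4519, 10947,
   11202, 14359, 17862, 21797, 22147, 27952, 29384, 14397, 14961, 15473, 22619, 1566, 5180, 8413,
   11045, 16699, 21699, 22543, 6581, 14539, 23145, 23657, 26502, 31028, 31952, 566, 3664, 16725,
   12710, 13792, 21549, 32257, 12411, 22986, 27504, 29898, 30922, 31528, 1574, 427, 469, 2650,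
   5658, 8525, 8905, 9033, 9160, 16563, 17479, 17585, 17713, 21392, 1927, 7073, 18886, 14772,
   14794, 15235, 15561, 18557, 22964, 23345, 23941, 25390, 26838, 27334, 29868, 32640, 14585,
   22905, 626, 1634, 435, 2646, 3612, 8363, 8743, 9108, 9610, 1435, 9499, 9573, 10673, 11545,
   17053, 17123, 18857, 20535, 21145, 21954, 25304, 25912, 2967, 5519, 13539, 15123, 19301,
   23693, 26254, 26390, 27430, 27436, 27492, 28300, 28974, 29894, 29922, 29928, 29990, 30482,
   14735, 14750, 22935, 22942, 30878, 30968, 31006, 31096, 31111]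

theorem forts_ok : forts.all isFort = true := by decide +kernel

/-- Does `m` miss one of the forts? -/
def misses (m : ℕ) : Bool := forts.any (fun F => (m &&& F) == 0)

theorem not_forcing_of_misses {m : ℕ} (h : misses m = true) : ¬ IsForcing X (ofMask m) := by
  rw [misses, List.any_eq_true] at h
  obtain ⟨F, hF, hm⟩ := h
  exact not_forcing_of_fort (List.all_eq_true.1 forts_ok F hF) (beq_iff_eq.1 hm)

/-! ## Enumeration of all sets of a given size -/

/-- Check `leaf` for all masks obtained from `m` by adding `k` of the bits below `i`. -/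
def dfs (leaf : ℕ → Bool) : ℕ → ℕ → ℕ → Bool
  | 0, k, m => k != 0 || leaf m
  | i + 1, k, m => (decide (i < k) || dfs leaf i k m) &&
      (k == 0 || force (m ||| 2 ^ i) (dfs leaf i (k - 1)))

theorem card_filter_lt (S : Finset (Fin 15)) (i : ℕ) :
    (S.filter (fun v => v.val < i)).card ≤ i := by
  calc (S.filter (fun v => v.val < i)).card
      = ((S.filter (fun v => v.val < i)).map Fin.valEmbedding).card := by
        rw [Finset.card_map]
    _ ≤ (Finset.range i).card := by
        apply Finset.card_le_card
        intro j hj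
        rw [Finset.mem_map] at hj
        obtain ⟨v, hv, rfl⟩ := hj
        rw [Finset.mem_filter] at hv
        exact Finset.mem_range.2 hv.2
    _ = i := Finset.card_range i

theorem dfs_sound (leaf : ℕ → Bool) : ∀ i, i ≤ 15 → ∀ k m, dfs leaf i k m = true →
    ∀ S : Finset (Fin 15), (∀ v : Fin 15, v.val < i → m.testBit v.val = false) →
      (∀ v : Fin 15, i ≤ v.val → (m.testBit v.val = true ↔ v ∈ S)) →
      (S.filter (fun v => v.val < i)).card = k →
      ∃ M, ofMask M = (S : Set (Fin 15)) ∧ leaf M = true := by
  intro i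
  induction i with
  | zero =>
    intro _ k m h S _ h2 h3
    have hk : k = 0 := by
      rw [← h3]
      simp
    refine ⟨m, ?_, ?_⟩
    · ext v
      rw [mem_ofMask, h2 v (Nat.zero_le _)]
      rfl
    · rw [dfs, hk] at h
      simpa using h
  | succ i ih =>
    intro hi k m h S h1 h2 h3
    rw [dfs, Bool.and_eq_true, Bool.or_eq_true, Bool.or_eq_true, force_eq] at h
    obtain ⟨ha, hb⟩ := h
    obtain ⟨v0, hv0⟩ : ∃ v0 : Fin 15, v0.val = i := ⟨⟨i, hi⟩, rfl⟩
    have hsplit : S.filter (fun v => v.val < i + 1) =
        if v0 ∈ S then insert v0 (S.filter (fun v => v.val < i))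
        else S.filter (fun v => v.val < i) := by
      ext v
      split_ifs with hS
      · rw [Finset.mem_insert, Finset.mem_filter, Finset.mem_filter]
        constructor
        · rintro ⟨hv, hlt⟩
          rcases Nat.lt_succ_iff_lt_or_eq.1 hlt with hlt | heq
          · exact Or.inr ⟨hv, hlt⟩
          · exact Or.inl (Fin.ext (heq.trans hv0.symm))
        · rintro (rfl | ⟨hv, hlt⟩)
          · exact ⟨hS, by omega⟩
          · exact ⟨hv, by omega⟩
      · rw [Finset.mem_filter, Finset.mem_filter]
        constructor
        · rintro ⟨hv, hlt⟩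
          rcases Nat.lt_succ_iff_lt_or_eq.1 hlt with hlt | heq
          · exact ⟨hv, hlt⟩
          · have : v = v0 := Fin.ext (heq.trans hv0.symm)
            exact absurd (this ▸ hv) hS
        · rintro ⟨hv, hlt⟩
          exact ⟨hv, by omega⟩
    by_cases hS : v0 ∈ S
    · rw [if_pos hS] at hsplit
      have hcard : (S.filter (fun v => v.val < i)).card + 1 = k := by
        rw [← h3, hsplit, Finset.card_insert_of_notMem]
        rw [Finset.mem_filter]
        rintro ⟨_, h⟩
        omega
      have hk0 : ¬ ((k == 0) = true) := by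
        rw [beq_iff_eq]
        omega
      have hb' := hb.resolve_left hk0
      refine ih (by omega) (k - 1) _ hb' S ?_ ?_ (by omega)
      · intro v hv
        rw [Nat.testBit_or, h1 v (by omega), Nat.testBit_two_pow, Bool.false_or,
          decide_eq_false_iff_not]
        omega
      · intro v hv
        rw [Nat.testBit_or, Nat.testBit_two_pow, Bool.or_eq_true, decide_eq_true_iff]
        by_cases hvi : v.val = i
        · have : v = v0 := Fin.ext (hvi.trans hv0.symm)
          constructor
          · intro _
            rw [this]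
            exact hS
          · intro _
            exact Or.inr hvi.symm
        · rw [h2 v (by omega)]
          constructor
          · rintro (h | h)
            · exact h
            · exact absurd h.symm hvi
          · exact Or.inl
    · rw [if_neg hS] at hsplit
      rw [hsplit] at h3
      have hle : ¬ (decide (i < k) = true) := by
        rw [decide_eq_true_iff]
        have := card_filter_lt S i
        omega
      have ha' := ha.resolve_left hle
      refine ih (by omega) k m ha' S (fun v hv => h1 v (by omega)) ?_ h3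
      intro v hv
      by_cases hvi : v.val = i
      · have : v = v0 := Fin.ext (hvi.trans hv0.symm)
        rw [this]
        constructor
        · intro h
          rw [h1 v0 (by omega)] at h
          exact absurd h (by decide)
        · exact fun h => absurd h hS
      · exact h2 v (by omega)

theorem dfs_all {leaf : ℕ → Bool} {k : ℕ} (h : dfs leaf 15 k 0 = true) (S : Finset (Fin 15))
    (hS : S.card = k) : ∃ M, ofMask M = (S : Set (Fin 15)) ∧ leaf M = true := by
  refine dfs_sound leaf 15 le_rfl k 0 h S (fun v _ => Nat.zero_testBit _) ?_ ?_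
  · intro v hv
    exact absurd v.isLt (by omega)
  · rw [← hS]
    congr 1
    rw [Finset.filter_eq_self]
    exact fun v _ => v.isLt

/-- The check for sets of size 6. -/
def leaf6 (m : ℕ) : Bool :=
  misses m || force (run true 3 m) isFull || !(force (run false 4 m) isFull)

theorem dfs5 : dfs misses 15 5 0 = true := by decide +kernel

theorem dfs6 : dfs leaf6 15 6 0 = true := by decide +kernel

/-! ## Conclusion -/

theorem IsForcing.mono {V : Type*} {G : SimpleGraph V} {S S' : Set V} (h : S ⊆ S')
    (hS : IsForcing G S) : IsForcing G S' := by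
  obtain ⟨t, ht⟩ := hS
  refine ⟨t, Set.eq_univ_of_univ_subset ?_⟩
  rw [← ht]
  exact blue_mono h t

theorem six_le {S : Finset (Fin 15)} (hS : IsForcing X (S : Set (Fin 15))) : 6 ≤ S.card := by
  by_contra hlt
  push Not at hlt
  obtain ⟨T, hST, hT⟩ := Finset.exists_superset_card_eq (s := S) (n := 5) (by omega)
    (by rw [Fintype.card_fin]; norm_num)
  obtain ⟨M, hM, hleaf⟩ := dfs_all dfs5 T hT
  apply not_forcing_of_misses hleaf
  rw [hM]
  exact hS.mono (by exact_mod_cast hST)

/-- The set with mask `m`. -/
def setOf (m : ℕ) : Finset (Fin 15) := Finset.univ.filter (fun v => m.testBit v.val = true)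

theorem coe_setOf (m : ℕ) : (setOf m : Set (Fin 15)) = ofMask m := by
  ext v
  simp [setOf, mem_ofMask]

theorem pt_setOf {m t : ℕ} (h1 : isFull (run true (t + 1) m) = true)
    (h2 : isFull (run false t m) = false) :
    IsForcing X (setOf m : Set (Fin 15)) ∧ pt X (setOf m) = t + 1 := by
  have a : blue X (ofMask m) (t + 1) = Set.univ := by
    apply Set.eq_univ_of_univ_subset
    rw [← isFull_iff.1 h1]
    exact run_subset_blue _ _
  have b : blue X (ofMask m) t ≠ Set.univ := by
    intro h
    have : ofMask (run false t m) = Set.univ := by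
      apply Set.eq_univ_of_univ_subset
      rw [← h]
      exact blue_subset_run _ _
    rw [← isFull_iff, h2] at this
    exact absurd this (by decide)
  have inc : ∀ s s', s ≤ s' → blue X (ofMask m) s ⊆ blue X (ofMask m) s' := by
    intro s s' hss
    induction hss with
    | refl => exact subset_rfl
    | step _ ih => exact ih.trans (subset_step _)
  rw [pt, coe_setOf]
  refine ⟨⟨t + 1, a⟩, le_antisymm (Nat.sInf_le a) ?_⟩
  apply le_csInf ⟨t + 1, a⟩
  intro s hs
  by_contra hlt
  apply b
  apply Set.eq_univ_of_univ_subset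
  have hs' : blue X (ofMask m) s = Set.univ := hs
  rw [← hs']
  exact inc s t (by omega)

theorem zPlus_X : zPlus X = 6 := by
  have h := pt_setOf (m := 1926) (t := 0) (by decide +kernel) (by decide +kernel)
  apply le_antisymm
  · exact Nat.sInf_le ⟨setOf 1926, h.1, by decide +kernel⟩
  · refine le_csInf ⟨6, setOf 1926, h.1, by decide +kernel⟩ ?_
    rintro k ⟨S, hS, rfl⟩
    exact six_le hS

theorem one_mem : 1 ∈ times X := by
  have h := pt_setOf (m := 1926) (t := 0) (by decide +kernel) (by decide +kernel)
  exact ⟨_, ⟨h.1, by rw [zPlus_X]; decide +kernel⟩, h.2⟩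

theorem nine_mem : 9 ∈ times X := by
  have h := pt_setOf (m := 2107) (t := 8) (by decide +kernel) (by decide +kernel)
  exact ⟨_, ⟨h.1, by rw [zPlus_X]; decide +kernel⟩, h.2⟩

theorem four_notMem : 4 ∉ times X := by
  rintro ⟨S, ⟨hS, hc⟩, ht⟩
  rw [zPlus_X] at hc
  obtain ⟨M, hM, hleaf⟩ := dfs_all dfs6 S hc
  have h4 : blue X (S : Set (Fin 15)) 4 = Set.univ := by
    have hne : {t | blue X (S : Set (Fin 15)) t = Set.univ}.Nonempty := hS
    have := Nat.sInf_mem hne
    rw [show sInf {t | blue X (S : Set (Fin 15)) t = Set.univ} = 4 from ht] at this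
    exact this
  have h3 : blue X (S : Set (Fin 15)) 3 ≠ Set.univ := by
    intro h
    have : pt X S ≤ 3 := Nat.sInf_le h
    omega
  rw [leaf6, Bool.or_eq_true, Bool.or_eq_true, force_eq, force_eq] at hleaf
  rcases hleaf with (h | h) | h
  · apply not_forcing_of_misses h
    rw [hM]
    exact hS
  · apply h3
    apply Set.eq_univ_of_univ_subset
    rw [← isFull_iff.1 h, ← hM]
    exact run_subset_blue _ _
  · rw [Bool.not_eq_true'] at h
    have : ofMask (run false 4 M) = Set.univ := by
      apply Set.eq_univ_of_univ_subset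
      rw [← h4, ← hM]
      exact blue_subset_run _ _
    rw [← isFull_iff, h] at this
    exact absurd this (by decide)

theorem times_finite : (times X).Finite := by
  have : times X ⊆ Set.range (fun S : Finset (Fin 15) => pt X S) := by
    rintro t ⟨S, _, h⟩
    exact ⟨S, h⟩
  exact (Set.finite_range _).subset this

theorem ptMin_X : ptMin X = 1 := by
  apply le_antisymm (Nat.sInf_le one_mem)
  refine le_csInf ⟨1, one_mem⟩ ?_
  rintro t ⟨S, ⟨hS, hc⟩, ht⟩
  rw [zPlus_X] at hc
  by_contra hlt
  have h0 : t = 0 := by omega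
  subst h0
  have hne : {t | blue X (S : Set (Fin 15)) t = Set.univ}.Nonempty := hS
  have := Nat.sInf_mem hne
  rw [show sInf {t | blue X (S : Set (Fin 15)) t = Set.univ} = 0 from ht] at this
  have h1 : (S : Set (Fin 15)) = Set.univ := this
  have h2 : S = Finset.univ := by exact_mod_cast h1
  rw [h2, Finset.card_univ, Fintype.card_fin] at hc
  exact absurd hc (by norm_num)

theorem nine_le_ptMax : 9 ≤ ptMax X := le_csSup times_finite.bddAbove nine_mem

/-- **Disproof.** There is a graph on 15 vertices with PSD zero forcing number 6, minimum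
propagation time 1 and maximum propagation time at least 9, for which no minimum PSD zero forcing
set has propagation time 4. So the interval property fails. -/
theorem result :
    (∃ G : SimpleGraph (Fin 15), zPlus G = 6 ∧ ptMin G = 1 ∧ 9 ≤ ptMax G ∧
      ¬ ∃ S : Finset (Fin 15), IsMinimum G S ∧ pt G S = 4) ∧
    ¬ ∀ (n : ℕ) (G : SimpleGraph (Fin n)) (k : ℕ), ptMin G ≤ k → k ≤ ptMax G →
      ∃ S : Finset (Fin n), IsMinimum G S ∧ pt G S = k := by
  refine ⟨⟨X, zPlus_X, ptMin_X, nine_le_ptMax, four_notMem⟩, ?_⟩
  intro h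
  exact four_notMem (h 15 X 4 (by rw [ptMin_X]; norm_num) (le_trans (by norm_num) nine_le_ptMax))

end Pool.Agent.Results.MP_bfe17a_co.NoInterval
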